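import Mathlib

/-!
Jacobi symbol lemmas.
-/

namespace Pool.Agent.Lib.MP_72789f_nt

open jacobiSym ZMod

theorem js_congr {a b : ℤ} {n : ℕ} (h : (n : ℤ) ∣ a - b) : jacobiSym a n = jacobiSym b n :=
  mod_left' (Int.modEq_iff_dvd.2 h).symm

theorem js_sq_ne {a y : ℤ} {n : ℕ} (h : (n : ℤ) ∣ y ^ 2 - a) : jacobiSym a n ≠ -1 := by
  rw [← js_congr h, pow_left]
  nlinarith [sq_nonneg (jacobiSym y n)]

theorem two_one {n : ℕ} (h : n % 8 = 1 ∨ n % 8 = 7) : jacobiSym 2 n = 1 := by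
  rw [at_two (Nat.odd_iff.2 (by omega)), χ₈_nat_eq_if_mod_eight, if_neg (by omega), if_pos h]

theorem neg_one_one {n : ℕ} (h : n % 4 = 1) : jacobiSym (-1) n = 1 := by
  rw [at_neg_one (Nat.odd_iff.2 (by omega)), χ₄_nat_one_mod_four h]

theorem neg_one_three {n : ℕ} (h : n % 4 = 3) : jacobiSym (-1) n = -1 := by
  rw [at_neg_one (Nat.odd_iff.2 (by omega)), χ₄_nat_three_mod_four h]

theorem rec1 {E : ℤ} {M : ℕ} (hE : E % 2 = 1) (hM : M % 4 = 1) :
    jacobiSym E M = jacobiSym M E.natAbs := by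
  have ho : Odd E.natAbs := Nat.odd_iff.2 (by omega)
  rw [← quadratic_reciprocity_one_mod_four' ho hM]
  rcases Int.natAbs_eq E with h | h
  · rw [← h]
  · conv_lhs => rw [h, neg_eq_neg_one_mul, mul_left, neg_one_one hM, one_mul]

/-- Reciprocity for a numerator congruent to `1` modulo `4`. -/
theorem rec2 {E : ℤ} {M : ℕ} (hE : E % 4 = 1) (hM : M % 2 = 1) :
    jacobiSym E M = jacobiSym M E.natAbs := by
  by_cases h1 : M % 4 = 1
  · exact rec1 (by omega) h1
  have h3 : M % 4 = 3 := by omega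
  rcases Int.natAbs_eq E with h | h
  · rw [← quadratic_reciprocity_one_mod_four (by omega) (Nat.odd_iff.2 hM), ← h]
  · conv_lhs => rw [h, neg_eq_neg_one_mul, mul_left, neg_one_three h3,
      quadratic_reciprocity_three_mod_four (by omega) h3]
    ring

theorem lemA {n : ℤ} (hn : n % 8 = 1) {L : ℕ} (hL : L ≠ 0) {y : ℤ} (h : (L : ℤ) ∣ y ^ 2 - n) :
    jacobiSym L n.natAbs ≠ -1 := by
  obtain ⟨k, m, hm, rfl⟩ := Nat.exists_eq_two_pow_mul_odd hL
  have h1 := js_sq_ne (n := m) (dvd_trans (by push_cast; exact Dvd.intro_left _ rfl) h)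
  rw [rec2 (by omega) (Nat.odd_iff.1 hm)] at h1
  push_cast
  rwa [mul_left, pow_left, two_one (by omega), one_pow, one_mul]

theorem euler_one {q : ℕ} (hq : q.Prime) (h2 : 2 < q) {x : ℤ} (h : x ^ (q / 2) % q = 1) :
    jacobiSym x q = 1 := by
  have : Fact q.Prime := ⟨hq⟩
  have : Fact (2 < q) := ⟨h2⟩
  have h1 := legendreSym.eq_pow q x
  have h3 : ((x : ZMod q)) ^ (q / 2) = 1 := by
    have := congrArg (Int.cast : ℤ → ZMod q) h
    simpa using this
  rw [h3, legendreSym.to_jacobiSym] at h1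
  rcases trichotomy x q with h | h | h
  · simp [h] at h1
  · exact h
  · rw [h] at h1
    exact (ZMod.neg_one_ne_one (by simpa using h1)).elim

theorem five_of {L : ℤ} (h : (5 : ℤ) ∣ L ^ 2 - 4) : jacobiSym L 5 = -1 := by
  rw [mod_left]
  have : L % 5 = 2 ∨ L % 5 = 3 := by
    have h1 : L ^ 2 % 5 = 4 := by omega
    rw [sq, Int.mul_emod] at h1
    have : L % 5 = 0 ∨ L % 5 = 1 ∨ L % 5 = 2 ∨ L % 5 = 3 ∨ L % 5 = 4 := by omega
    rcases this with h | h | h | h | h <;> simp [h] at h1 ⊢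
  rcases this with h | h <;> simp only [Nat.cast_ofNat, h] <;> norm_num

theorem lemA' {q : ℕ} (hq : q ≠ 0) {n : ℤ} (hn : n % 8 = 1) (hq' : n.natAbs = 5 * q) {L y : ℤ}
    (hL : 0 < L) (h5 : (5 : ℤ) ∣ L ^ 2 - 4) (hj : jacobiSym L q = 1) (h : L ∣ y ^ 2 - n) :
    False := by
  lift L to ℕ using hL.le
  refine lemA hn (by omega) h ?_
  rw [hq', mul_right' _ (by norm_num) hq, five_of h5, hj]
  rfl

theorem core701 {L f s : ℤ} (h : IsCoprime f L) (hD : (24 * s * f + L) % 2 = 1) (hs : s ^ 2 = 1) :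
    jacobiSym (L ^ 2 + 125 * f ^ 2) (24 * s * f + L).natAbs = jacobiSym (24 * s * f + L) 701 := by
  have h1 : (((24 * s * f + L).natAbs : ℕ) : ℤ) ∣ L ^ 2 + 125 * f ^ 2 - 701 * f ^ 2 := by
    rw [Int.natCast_natAbs, abs_dvd]
    exact ⟨L - 24 * s * f, by linear_combination (576 * f ^ 2) * hs⟩
  have h2 : f.gcd ((24 * s * f + L).natAbs : ℕ) = 1 := by
    rw [Int.natCast_natAbs, ← Int.isCoprime_iff_gcd_eq_one, IsCoprime.abs_right_iff]
    simpa [add_comm, mul_comm] using h.add_mul_right_right (24 * s)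
  rw [js_congr h1, mul_left, sq_one' h2, mul_one, rec1 hD (by norm_num)]
  rfl

theorem lemB {u f s X : ℤ} (hu : 2 < u ^ 2) (h : (u ^ 2 - 2) ^ 2 - 125 * f ^ 2 = 4)
    (hp : u % 2 = 1 ∨ u % 4 = 2) (hs : s ^ 2 = 1)
    (hj : jacobiSym (24 * s * f + (u ^ 2 - 2)) 701 = 1)
    (hd : (u ^ 2 - 2) ^ 2 - 2 ∣ X ^ 2 - (12 * s * f * (u ^ 2 - 2) + 1)) : False := by
  rcases hp with hp | hp
  · obtain ⟨L, hL⟩ : ∃ L : ℕ, u ^ 2 - 2 = L := ⟨(u ^ 2 - 2).toNat, by omega⟩
    have l8 : (L : ℤ) % 8 = 7 := by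
      obtain ⟨v, rfl⟩ : ∃ v, u = 2 * v + 1 := ⟨u / 2, by omega⟩
      obtain ⟨w, hw⟩ := Int.even_mul_succ_self v
      have : (L : ℤ) = 8 * w - 1 := by linear_combination -hL + 4 * hw
      omega
    rw [hL] at h hj hd
    obtain ⟨M, hM⟩ : ∃ M : ℕ, (L : ℤ) ^ 2 - 2 = M := ⟨((L : ℤ) ^ 2 - 2).toNat, by
      have : (7 : ℤ) ≤ L := by omega
      have : (0 : ℤ) ≤ (L : ℤ) ^ 2 - 2 := by nlinarith
      omega⟩
    have m8 : (M : ℤ) % 8 = 7 := by
      obtain ⟨v, hv⟩ : ∃ v, (L : ℤ) = 8 * v + 7 := ⟨L / 8, by omega⟩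
      have : (M : ℤ) = 8 * (8 * v ^ 2 + 14 * v + 5) + 7 := by rw [← hM, hv]; ring
      omega
    have hc : IsCoprime f (L : ℤ) := by
      have h2 : IsCoprime (2 : ℤ) L := ⟨-(L / 2), 1, by omega⟩
      have h4 : IsCoprime (-125 * f * f + L * L) (L : ℤ) := by
        rw [show -125 * f * f + L * L = 2 ^ 2 by linear_combination h]
        exact h2.pow_left
      exact (IsCoprime.of_add_mul_right_left h4).of_mul_left_right
    have d8 : (24 * s * f + L) % 8 = 7 := by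
      have : 24 * s * f = 8 * (3 * s * f) := by ring
      omega
    obtain ⟨c, hc'⟩ := hd
    refine js_sq_ne (a := 2 * (L * (24 * s * f + L))) (y := 2 * X) (n := M)
      ⟨4 * c - 2, by rw [← hM]; linear_combination 4 * hc'⟩ ?_
    have e1 : jacobiSym L M = 1 := by
      rw [quadratic_reciprocity_three_mod_four (by omega) (by omega),
        js_congr (b := -1 * 2) ⟨L, by linear_combination -hM⟩, mul_left,
        neg_one_three (by omega), two_one (by omega)]
      rfl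
    have e2 : jacobiSym (24 * s * f + L) M = -1 := by
      have e3 := rec2 (E := -(24 * s * f + L)) (M := M) (by omega) (by omega)
      rw [neg_eq_neg_one_mul, mul_left, neg_one_three (by omega), ← neg_eq_neg_one_mul,
        ← neg_eq_neg_one_mul, Int.natAbs_neg] at e3
      have e4 := core701 hc (by omega) hs
      rw [show (L : ℤ) ^ 2 + 125 * f ^ 2 = 2 * M by linear_combination 2 * hM - h, mul_left,
        two_one (by omega), hj] at e4
      linarith
    rw [mul_left, mul_left, two_one (by omega), e1, e2]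
    rfl
  · obtain ⟨v, rfl⟩ : ∃ v, u = 2 * (2 * v + 1) := ⟨u / 4, by omega⟩
    obtain ⟨L, hL⟩ : ∃ L : ℕ, 2 * (2 * v + 1) ^ 2 - 1 = L :=
      ⟨(2 * (2 * v + 1) ^ 2 - 1).toNat, by
        have : (0 : ℤ) ≤ 2 * (2 * v + 1) ^ 2 - 1 := by nlinarith
        omega⟩
    have l8 : (L : ℤ) % 8 = 1 := by
      have : (L : ℤ) = 8 * (v ^ 2 + v) + 1 := by linear_combination -hL
      omega
    rw [show (2 * (2 * v + 1)) ^ 2 - 2 = 2 * (L : ℤ) by linear_combination 2 * hL] at h hj hd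
    obtain ⟨g, rfl⟩ : ∃ g, f = 2 * g := by
      have : Even (f ^ 2) := by
        have : Even (125 * f ^ 2) := ⟨2 * L ^ 2 - 2, by linear_combination -h⟩
        simpa [Int.even_mul, show ¬ Even (125 : ℤ) by decide] using this
      obtain ⟨g, hg⟩ := (Int.even_pow.1 this).1
      exact ⟨g, by omega⟩
    have h' : (L : ℤ) ^ 2 - 125 * g ^ 2 = 1 := by linarith
    obtain ⟨M, hM⟩ : ∃ M : ℕ, 2 * (L : ℤ) ^ 2 - 1 = M := ⟨(2 * (L : ℤ) ^ 2 - 1).toNat, by
      have : (1 : ℤ) ≤ L := by omega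
      have : (0 : ℤ) ≤ 2 * (L : ℤ) ^ 2 - 1 := by nlinarith
      omega⟩
    have m8 : (M : ℤ) % 8 = 1 := by
      obtain ⟨w, hw⟩ : ∃ w, (L : ℤ) = 8 * w + 1 := ⟨L / 8, by omega⟩
      have : (M : ℤ) = 8 * (16 * w ^ 2 + 4 * w) + 1 := by rw [← hM, hw]; ring
      omega
    have hc : IsCoprime g (L : ℤ) := ⟨-125 * g, L, by linear_combination h'⟩
    have d8 : (24 * s * g + L) % 8 = 1 := by
      have : 24 * s * g = 8 * (3 * s * g) := by ring
      omega
    obtain ⟨c, hc'⟩ := hd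
    refine js_sq_ne (a := 2 * (L * (24 * s * g + L))) (y := X) (n := M)
      ⟨2 * c - 1, by rw [← hM]; linear_combination hc'⟩ ?_
    have e1 : jacobiSym L M = 1 := by
      rw [quadratic_reciprocity_one_mod_four (by omega) (Nat.odd_iff.2 (by omega)),
        js_congr (b := -1) ⟨2 * L, by linear_combination -hM⟩, neg_one_one (by omega)]
    have e2 : jacobiSym (24 * s * g + L) M = -1 := by
      have e4 := core701 hc (by omega) hs
      rw [show (L : ℤ) ^ 2 + 125 * g ^ 2 = M by linear_combination hM - h'] at e4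
      rw [show 24 * s * (2 * g) + 2 * (L : ℤ) = 2 * (24 * s * g + L) by ring, mul_left,
        show jacobiSym 2 701 = -1 by norm_num] at hj
      rw [rec1 (by omega) (by omega), e4]
      linarith
    rw [mul_left, mul_left, two_one (by omega), e1, e2]
    rfl

end Pool.Agent.Lib.MP_72789f_nt
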