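import Mathlib
import Pool.Agent.Lib.MP_72789f_nt.Jac

/-!
The equation `5 X ^ 2 = 4 F t (L t + 3 e) + 5` in Fibonacci and Lucas numbers.
-/

namespace Pool.Agent.Lib.MP_72789f_nt

def F (n : ℕ) : ℤ := Nat.fib n

def L (n : ℕ) : ℤ := 2 * F (n + 1) - F n

theorem F_add_two (n : ℕ) : F (n + 2) = F n + F (n + 1) := by simp [F, Nat.fib_add_two]

theorem F_add1 (m n : ℕ) : F (m + n + 1) = F m * F n + F (m + 1) * F (n + 1) := by
  simp [F, Nat.fib_add]

theorem F_add (m n : ℕ) : F (m + n) = F m * F (n + 1) + F (m + 1) * F n - F m * F n := by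
  have h1 := F_add1 m n
  have h2 := F_add1 (m + 1) n
  rw [show m + 1 + n + 1 = m + n + 2 by ring, F_add_two, F_add_two] at h2
  linear_combination h2 - h1

theorem cass (n : ℕ) : F (n + 1) ^ 2 - F (n + 1) * F n - F n ^ 2 = (-1) ^ n := by
  induction n with
  | zero => simp [F]
  | succ n ih =>
    rw [F_add_two, pow_succ (-1 : ℤ)]
    linear_combination -ih

theorem cass_even {n : ℕ} (h : Even n) : F (n + 1) ^ 2 - F (n + 1) * F n - F n ^ 2 = 1 := by
  rw [cass, h.neg_one_pow]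

theorem L_sq {n : ℕ} (h : Even n) : L n ^ 2 - 5 * F n ^ 2 = 4 := by
  rw [L]
  linear_combination 4 * cass_even h

theorem L_pos (n : ℕ) : 0 < L n := by
  have h1 : F n ≤ F (n + 1) := by simpa [F] using Nat.fib_le_fib_succ
  have h2 : 0 < F (n + 1) := by simp [F]
  rw [L]
  omega

theorem F_dbl (k : ℕ) : F (2 * k) = F k * L k := by
  rw [two_mul, F_add, L]
  ring

theorem L_dbl {k : ℕ} (h : Even k) : L (2 * k) = L k ^ 2 - 2 := by
  rw [L, F_dbl, two_mul k, F_add1, L]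
  linear_combination -2 * cass_even h

theorem shift {k : ℕ} (h : Even k) (t v : ℕ) : L k ∣ F (t + 2 * k * v) - (-1) ^ v * F t ∧
    L k ∣ F (t + 2 * k * v + 1) - (-1) ^ v * F (t + 1) := by
  have h1 : F (2 * k + 1) = F (k + 1) * L k - 1 := by
    rw [two_mul k, F_add1, L]
    linear_combination -cass_even h
  induction v with
  | zero => simp
  | succ v ih =>
    obtain ⟨⟨a, ha⟩, ⟨b, hb⟩⟩ := ih
    rw [mul_add, mul_one, ← add_assoc, F_add1, F_add, F_dbl, h1, pow_succ]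
    exact ⟨⟨F (t + 2 * k * v) * F (k + 1) + F (t + 2 * k * v + 1) * F k -
      F (t + 2 * k * v) * F k - a, by linear_combination -ha⟩,
      ⟨F (t + 2 * k * v) * F k + F (t + 2 * k * v + 1) * F (k + 1) - b,
        by linear_combination -hb⟩⟩

theorem pell_aux (y : ℕ) : ∀ x : ℕ, x ≤ y →
    ((y : ℤ) ^ 2 - y * x - x ^ 2 = 1 ∨ (y : ℤ) ^ 2 - y * x - x ^ 2 = -1) →
    ∃ n, F n = x ∧ F (n + 1) = y := by
  induction y using Nat.strong_induction_on with
  | h y ih =>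
    intro x hx h
    rcases Nat.eq_zero_or_pos x with rfl | h0
    · refine ⟨0, rfl, ?_⟩
      have : (y : ℤ) = 1 := by
        rcases h with h | h <;> simp at h <;> nlinarith
      rw [this]
      rfl
    rcases hx.eq_or_lt with rfl | hx
    · refine ⟨1, ?_⟩
      have : (x : ℤ) = 1 := by
        rcases h with h | h <;> nlinarith
      rw [this]
      exact ⟨rfl, rfl⟩
    obtain ⟨d, rfl⟩ := Nat.exists_eq_add_of_le hx.le
    have hd : d ≤ x := by
      by_contra hc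
      have h1 : (x : ℤ) + 1 ≤ d := by omega
      have h2 : (1 : ℤ) ≤ x := by omega
      push_cast at h
      rcases h with h | h <;> nlinarith
    obtain ⟨n, h1, h2⟩ := ih x hx d hd (by
      push_cast at h
      rcases h with h | h
      exacts [Or.inr (by linear_combination -h), Or.inl (by linear_combination -h)])
    exact ⟨n + 1, h2, by rw [F_add_two, h1, h2]; push_cast; ring⟩

theorem pell {a b : ℕ} (h : (b : ℤ) ^ 2 - 5 * a ^ 2 = 4) : ∃ t, Even t ∧ F t = a ∧ L t = b := by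
  have h1 : a ≤ b := by
    by_contra hc
    have : (b : ℤ) < a := by omega
    nlinarith
  have h2 : (a + b) % 2 = 0 := by
    by_contra hc
    obtain ⟨c, hc⟩ : ∃ c : ℤ, (b : ℤ) = 2 * c + 1 - a := ⟨(a + b) / 2, by omega⟩
    rw [hc] at h
    have : 2 * (2 * c ^ 2 + 2 * c - 2 * c * a - a - 2 * a ^ 2 - 2) = -1 := by linear_combination h
    omega
  obtain ⟨y, hy⟩ : ∃ y, a + b = 2 * y := ⟨(a + b) / 2, by omega⟩
  have hy' : (b : ℤ) = 2 * y - a := by omega
  have h3 : (y : ℤ) ^ 2 - y * a - a ^ 2 = 1 := by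
    rw [hy'] at h
    linarith
  obtain ⟨n, n1, n2⟩ := pell_aux y a (by omega) (Or.inl h3)
  refine ⟨n, ?_, n1, by rw [L, n1, n2, hy']⟩
  by_contra hc
  have := cass n
  rw [n1, n2, h3, (Nat.not_even_iff_odd.1 hc).neg_one_pow] at this
  omega

def Pm : ℤ := 5 * 7 * 11 * 17 * 19 * 23 * 31 * 41 * 61 * 107 * 181 * 241

theorem per (t v : ℕ) : Pm ∣ F (t + 720 * v) - F t ∧ Pm ∣ F (t + 720 * v + 1) - F (t + 1) := by
  obtain ⟨c, hc⟩ : Pm ∣ F 720 := by decide +kernel
  obtain ⟨d, hd⟩ : Pm ∣ F (720 + 1) - 1 := by decide +kernel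
  induction v with
  | zero => simp
  | succ v ih =>
    obtain ⟨⟨a, ha⟩, ⟨b, hb⟩⟩ := ih
    rw [mul_add, mul_one, ← add_assoc, F_add1 (t + 720 * v) 720, F_add (t + 720 * v) 720, hc,
      show F (720 + 1) = Pm * d + 1 by omega]
    exact ⟨⟨F (t + 720 * v) * d + F (t + 720 * v + 1) * c - F (t + 720 * v) * c + a,
      by linear_combination ha⟩, ⟨F (t + 720 * v) * c + F (t + 720 * v + 1) * d + b,
      by linear_combination hb⟩⟩

def bad (N : ℤ) (p : ℕ) : Bool := (List.range p).all fun x => (5 * (x : ℤ) ^ 2 - N) % p != 0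

def good (e : ℤ) (t : ℕ) : Bool := t % 2 == 1 || (L t + 3 * e) % 5 != 0 ||
  [7, 11, 17, 19, 23, 31, 41, 61, 107, 181, 241].any (bad ((4 * F t * (L t + 3 * e) + 5) % Pm))

theorem sieve1 : ∀ t < 720, good 1 t = true ∨ t = 0 ∨ t = 360 ∨ t = 4 ∨ t = 8 := by
  decide +kernel

theorem sieve2 : ∀ t < 720, good (-1) t = true ∨ t = 2 ∨ t = 718 := by
  decide +kernel

theorem not_good {e X : ℤ} {t : ℕ} (h1 : Even t) (h2 : 5 ∣ L t + 3 * e)
    (h3 : 5 * X ^ 2 = 4 * F t * (L t + 3 * e) + 5) : good e (t % 720) ≠ true := by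
  obtain ⟨⟨a, ha⟩, ⟨b, hb⟩⟩ := per (t % 720) (t / 720)
  rw [Nat.mod_add_div] at ha hb
  generalize hs : t % 720 = s at ha hb
  have hL : L t = L s + Pm * (2 * b - a) := by
    rw [L, L]
    linear_combination 2 * hb - ha
  have hF : F t = F s + Pm * a := by linear_combination ha
  simp only [good, ne_eq, Bool.or_eq_true, beq_iff_eq, bne_iff_ne, List.any_eq_true, not_or,
    not_not, not_exists, not_and]
  refine ⟨⟨by have := Nat.even_iff.1 h1; omega, ?_⟩, fun p hp hb => ?_⟩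
  · rw [hL, Pm] at h2
    omega
  · have hp1 : (p : ℤ) ∣ Pm ∧ 0 < p :=
      (by decide +kernel : ∀ p : ℕ, p ∈ [7, 11, 17, 19, 23, 31, 41, 61, 107, 181, 241] →
        (p : ℤ) ∣ Pm ∧ 0 < p) p hp
    simp only [bad, List.all_eq_true, List.mem_range, bne_iff_ne] at hb
    have h0 : 0 ≤ X % p := Int.emod_nonneg _ (by omega)
    refine hb (X % p).toNat (by have := Int.emod_lt_of_pos X (show (0 : ℤ) < p by omega); omega) ?_
    rw [Int.toNat_of_nonneg h0]
    refine Int.emod_eq_zero_of_dvd ?_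
    obtain ⟨c, hc⟩ := hp1.1
    have e1 := Int.emod_add_mul_ediv X p
    have e2 := Int.emod_add_mul_ediv (4 * F s * (L s + 3 * e) + 5) Pm
    rw [hL, hF] at h3
    generalize (4 * F s * (L s + 3 * e) + 5) % Pm = N at e2 ⊢
    generalize (4 * F s * (L s + 3 * e) + 5) / Pm = N' at e2
    generalize X % p = r at e1 ⊢
    generalize X / p = r' at e1
    rw [hc] at h3 e2
    subst e1
    exact ⟨-10 * r * r' - 5 * p * r' ^ 2 + c * N' + 4 * c * (F s * (2 * b - a) +
      a * (L s + 3 * e) + p * c * a * (2 * b - a)), by linear_combination h3 - e2⟩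

def db (q : ℤ) (x : ℤ × ℤ) : ℤ × ℤ := (x.1 * x.2 % q, (x.2 ^ 2 - 2) % q)

theorem iter (q : ℤ) {k : ℕ} (h : Even k) (i : ℕ) :
    (F (k * 2 ^ i) % q, L (k * 2 ^ i) % q) = (db q)^[i] (F k % q, L k % q) := by
  induction i with
  | zero => simp
  | succ i ih =>
    rw [Function.iterate_succ_apply', ← ih, pow_succ, ← mul_assoc, mul_comm _ 2, F_dbl,
      L_dbl (h.mul_right _), db]
    simp [Int.mul_emod, Int.sub_emod, sq]

theorem iter' (q : ℤ) {k T : ℕ} (h : Even k)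
    (hT : (db q)^[T] (F k % q, L k % q) = (F k % q, L k % q)) (i : ℕ) :
    (F (k * 2 ^ i) % q, L (k * 2 ^ i) % q) = (db q)^[i % T] (F k % q, L k % q) := by
  rw [iter q h, Function.IsPeriodicPt.iterate_mod_apply hT]

theorem decomp {d m : ℕ} (h0 : 0 < d) (h : 2 ^ m * 45 ∣ d) :
    ∃ i w, Odd w ∧ d = 2 ^ m * 2 ^ i * 45 * w := by
  obtain ⟨c, rfl⟩ := h
  obtain ⟨i, w, hw, rfl⟩ := Nat.exists_eq_two_pow_mul_odd (n := c) (by rintro rfl; simp at h0)
  exact ⟨i, w, hw, by ring⟩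

theorem clsA {q T : ℕ} (hq : q.Prime) (h2 : 2 < q) (hT : 0 < T) (cs : List ℕ)
    (h1 : ∀ c ∈ cs, c ∣ 45 ∧ (db q)^[T] (F (8 * c) % q, L (8 * c) % q) =
      (F (8 * c) % q, L (8 * c) % q))
    (h3 : ∀ i < T, ∃ c ∈ cs, ((db q)^[i] (F (8 * c) % q, L (8 * c) % q)).2 ^ (q / 2) % q = 1)
    {d : ℕ} (h0 : 0 < d) (hd : 720 ∣ d) :
    ∃ k v, Even k ∧ d = 2 * k * (2 * v + 1) ∧ jacobiSym (L k) q = 1 := by
  obtain ⟨i, w, hw, rfl⟩ := decomp (m := 4) h0 hd
  obtain ⟨c, hc, h4⟩ := h3 (i % T) (Nat.mod_lt _ hT)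
  obtain ⟨⟨c', hc'⟩, h5⟩ := h1 c hc
  have he : Even (8 * c) := ⟨4 * c, by ring⟩
  have ho : Odd (c' * w) := by
    refine Odd.mul ?_ hw
    exact (Nat.odd_mul.1 (hc' ▸ (by decide : Odd 45))).2
  obtain ⟨v, hv⟩ := ho
  refine ⟨8 * c * 2 ^ i, v, he.mul_right _, by rw [← hv, hc']; ring, ?_⟩
  rw [← iter' q he h5] at h4
  rw [jacobiSym.mod_left]
  exact euler_one hq h2 h4

theorem five_dvd {k : ℕ} (h : Even k) : (5 : ℤ) ∣ L k ^ 2 - 4 :=
  ⟨F k ^ 2, by linear_combination L_sq h⟩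

theorem neg_one_odd (v : ℕ) : (-1 : ℤ) ^ (2 * v + 1) = -1 := by simp [pow_succ]

theorem main1 {X : ℤ} {t : ℕ} (h1 : Even t) (h2 : 5 ∣ L t + 3 * 1)
    (h3 : 5 * X ^ 2 = 4 * F t * (L t + 3 * 1) + 5) : t = 0 ∨ t = 4 ∨ t = 8 := by
  by_contra hc
  have h4 := (sieve1 _ (Nat.mod_lt t (by norm_num))).resolve_left (not_good h1 h2 h3)
  rcases (by omega : t % 360 = 0 ∨ t % 720 = 4 ∨ t % 720 = 8) with h | h | h
  · obtain ⟨i, w, hw, rfl⟩ := decomp (d := t) (m := 3) (by omega) (by omega)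
    have h5 : ∀ i < 12, ∀ s ∈ [(1 : ℤ), -1], ∃ c ∈ [5, 15, 45],
        (24 * (s * (-1) ^ (45 / c / 2)) * ((db 701)^[i] (F (4 * c) % 701, L (4 * c) % 701)).1 +
          5 * ((db 701)^[i] (F (4 * c) % 701, L (4 * c) % 701)).2) ^ (701 / 2) % (701 : ℕ) = 1 := by
      decide +kernel
    have h6 : ∀ c ∈ [5, 15, 45], c * (45 / c) = 45 ∧ 45 / c = 2 * (45 / c / 2) + 1 ∧ 5 ∣ c ∧
        (db 701)^[12] (F (4 * c) % 701, L (4 * c) % 701) = (F (4 * c) % 701, L (4 * c) % 701) := by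
      decide +kernel
    obtain ⟨v, rfl⟩ := hw
    obtain ⟨c, hc, h7⟩ := h5 (i % 12) (Nat.mod_lt _ (by norm_num)) ((-1) ^ v) (by
      rcases neg_one_pow_eq_or ℤ v with h | h <;> simp [h])
    obtain ⟨c1, c2, c3, c4⟩ := h6 c hc
    have he : Even (4 * c) := ⟨2 * c, by ring⟩
    rw [← iter' 701 he c4] at h7
    have h8 := euler_one (by norm_num) (by norm_num) h7
    generalize 45 / c / 2 = z at h8 c2
    have he' : Even (2 * c * 2 ^ i) := ⟨c * 2 ^ i, by ring⟩
    have e0 : 4 * c * 2 ^ i = 2 * (2 * c * 2 ^ i) := by ring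
    obtain ⟨f, hf⟩ : 5 ∣ F (4 * c * 2 ^ i) := by
      have := Nat.fib_dvd 5 (4 * c * 2 ^ i) ((c3.mul_left 4).mul_right _)
      exact Int.natCast_dvd_natCast.2 this
    have e1 : 2 ^ 3 * 2 ^ i * 45 * (2 * v + 1) =
        2 * (4 * c * 2 ^ i) + 2 * (2 * (4 * c * 2 ^ i)) * (2 * v * z + v + z) := by
      rw [← c1, c2]
      ring
    rw [e1] at h3
    have hj : Even (4 * c * 2 ^ i) := he.mul_right _
    have hL := L_dbl he'
    rw [← e0] at hL
    generalize 4 * c * 2 ^ i = j at h3 h8 hf hj hL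
    obtain ⟨⟨a, ha⟩, ⟨b, hb⟩⟩ := shift (k := 2 * j) ⟨j, by ring⟩ (2 * j) (2 * v * z + v + z)
    have hs : (-1 : ℤ) ^ (2 * v * z + v + z) = (-1) ^ v * (-1) ^ z := by
      rw [pow_add, pow_add, mul_assoc 2, pow_mul]
      simp
    rw [hs] at ha hb
    have hs2 : ((-1 : ℤ) ^ v * (-1) ^ z) ^ 2 = 1 := by
      rw [← pow_add, ← pow_mul, mul_comm, pow_mul]
      simp
    generalize (-1 : ℤ) ^ v * (-1) ^ z = s at ha hb h8 hs2
    have hq := L_sq hj
    have hu := L_sq he'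
    have hp := L_pos j
    refine lemB (u := L (2 * c * 2 ^ i)) (f := f) (s := s) (X := X) (by omega)
      (by rw [← hL]; rw [hf] at hq; linarith) ?_ hs2 ?_ ?_
    · generalize L (2 * c * 2 ^ i) = u at hu
      generalize F (2 * c * 2 ^ i) = g at hu
      by_contra hc
      obtain ⟨x, rfl⟩ : ∃ x, u = 4 * x := ⟨u / 4, by omega⟩
      rcases Int.even_or_odd' g with ⟨y, rfl | rfl⟩
      · rcases Int.even_or_odd' y with ⟨y', rfl | rfl⟩
        · have : 4 * (x ^ 2 - 5 * y' ^ 2) = 1 := by linarith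
          omega
        · have : 2 * (2 * x ^ 2 - 10 * y' ^ 2 - 10 * y') = 6 := by linarith
          have : 2 * (x ^ 2 - 5 * y' ^ 2 - 5 * y') = 3 := by linarith
          omega
      · have : 2 * (8 * x ^ 2 - 10 * y ^ 2 - 10 * y) = 9 := by linarith
        omega
    · rw [← hL]
      rw [js_congr (b := 5 * (24 * s * f + L j)) (by
        have e1 := Int.emod_add_mul_ediv (F j) 701
        have e2 := Int.emod_add_mul_ediv (L j) 701
        exact ⟨-(24 * s * (F j / 701) + 5 * (L j / 701)), by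
          push_cast
          linear_combination 24 * s * e1 + 5 * e2 + 24 * s * hf⟩), jacobiSym.mul_left,
        show jacobiSym 5 701 = 1 by norm_num, one_mul] at h8
      exact h8
    · rw [← hL, ← L_dbl hj]
      have hco : IsCoprime (L (2 * j)) 5 := by
        rw [L_dbl hj]
        exact ⟨3, -3 * F j ^ 2 - 1, by linear_combination 3 * hq⟩
      refine hco.dvd_of_dvd_mul_left ?_
      rw [L] at h3
      have hd := F_dbl j
      have hl : 2 * F (2 * j + 1) - F (2 * j) = L (2 * j) := rfl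
      generalize F (2 * j + 2 * (2 * j) * (2 * v * z + v + z) + 1) = B at h3 hb
      generalize F (2 * j + 2 * (2 * j) * (2 * v * z + v + z)) = A at h3 ha
      exact ⟨4 * A * (2 * b - a + s) + 12 * a, by
        linear_combination h3 + 4 * A * (2 * hb - ha + s * hl) + 12 * ha + 12 * s * hd +
          12 * s * L j * hf⟩
  · obtain ⟨k, v, k1, k2, k3⟩ := clsA (q := 53) (T := 2) (by norm_num) (by norm_num) (by norm_num)
      [9] (by decide +kernel) (by decide +kernel) (d := t - 4) (by omega) (by omega)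
    obtain ⟨⟨a, ha⟩, ⟨b, hb⟩⟩ := shift k1 4 (2 * v + 1)
    rw [← k2, show 4 + (t - 4) = t by omega, neg_one_odd] at ha hb
    refine lemA' (q := 53) (n := 265) (y := 5 * X) (by norm_num) (by norm_num) (by norm_num)
      (L_pos k) (five_dvd k1) k3 ⟨20 * F t * (2 * b - a) - 80 * a, ?_⟩
    rw [L] at h3
    rw [show F 4 = 3 by rfl] at ha
    rw [show F (4 + 1) = 5 by rfl] at hb
    linear_combination 5 * h3 + 20 * F t * (2 * hb - ha) - 80 * ha
  · obtain ⟨k, v, k1, k2, k3⟩ := clsA (q := 3701) (T := 180) (by norm_num) (by norm_num)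
      (by norm_num) [1, 3, 5, 9] (by decide +kernel) (by decide +kernel) (d := t - 8) (by omega)
      (by omega)
    obtain ⟨⟨a, ha⟩, ⟨b, hb⟩⟩ := shift k1 8 (2 * v + 1)
    rw [← k2, show 8 + (t - 8) = t by omega, neg_one_odd] at ha hb
    refine lemA' (q := 3701) (n := 18505) (y := 5 * X) (by norm_num) (by norm_num) (by norm_num)
      (L_pos k) (five_dvd k1) k3 ⟨20 * F t * (2 * b - a) - 880 * a, ?_⟩
    rw [L] at h3
    rw [show F 8 = 21 by rfl] at ha
    rw [show F (8 + 1) = 34 by rfl] at hb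
    linear_combination 5 * h3 + 20 * F t * (2 * hb - ha) - 880 * ha

theorem main2 {X : ℤ} {t : ℕ} (h1 : Even t) (h2 : 5 ∣ L t + 3 * (-1))
    (h3 : 5 * X ^ 2 = 4 * F t * (L t + 3 * (-1)) + 5) : t = 2 := by
  by_contra hc
  rcases (sieve2 _ (Nat.mod_lt t (by norm_num))).resolve_left (not_good h1 h2 h3) with h | h
  · obtain ⟨k, v, k1, k2, k3⟩ := clsA (q := 29) (T := 3) (by norm_num) (by norm_num) (by norm_num)
      [1, 3, 5] (by decide +kernel) (by decide +kernel) (d := t - 2) (by omega) (by omega)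
    obtain ⟨⟨a, ha⟩, ⟨b, hb⟩⟩ := shift k1 2 (2 * v + 1)
    rw [← k2, show 2 + (t - 2) = t by omega, neg_one_odd] at ha hb
    refine lemA' (q := 29) (n := 145) (y := 5 * X) (by norm_num) (by norm_num) (by norm_num)
      (L_pos k) (five_dvd k1) k3 ⟨20 * F t * (2 * b - a) - 120 * a, ?_⟩
    rw [L] at h3
    rw [show F 2 = 1 by rfl] at ha
    rw [show F (2 + 1) = 2 by rfl] at hb
    linear_combination 5 * h3 + 20 * F t * (2 * hb - ha) - 120 * ha
  · obtain ⟨k, v, k1, k2, k3⟩ := clsA (q := 19) (T := 6) (by norm_num) (by norm_num) (by norm_num)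
      [1, 5] (by decide +kernel) (by decide +kernel) (d := t + 2) (by omega) (by omega)
    obtain ⟨⟨a, ha⟩, ⟨b, hb⟩⟩ := shift k1 0 (2 * v + 1)
    rw [← k2, zero_add, neg_one_odd] at ha hb
    refine lemA' (q := 19) (n := -95) (y := 5 * X) (by norm_num) (by norm_num) (by norm_num)
      (L_pos k) (five_dvd k1) k3 ⟨20 * F t * (3 * b - 4 * a) - 120 * (2 * a - b), ?_⟩
    rw [L] at h3
    rw [show F 0 = 0 by rfl, F_add_two] at ha
    rw [show F (0 + 1) = 1 by rfl, show t + 2 + 1 = t + 1 + 2 by ring, F_add_two, F_add_two] at hb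
    linear_combination 5 * h3 + 20 * F t * (3 * hb - 4 * ha) - 120 * (2 * ha - hb)

end Pool.Agent.Lib.MP_72789f_nt
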